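import Pool.Agent.H914R2.Cyc

/-!
# The numerical dimension of a variety: definitions

Everything is in terms of algebraic cycles and their intersection numbers; no cohomology is used.
-/

open CategoryTheory AlgebraicGeometry

universe u

namespace Pool.Agent.Q57.ND

open Pool.Agent.H914 Pool.Agent.H914.VarClass Pool.Agent.H914.VarClass.Obj

variable {k : Type u} [Field k] {𝒱 : VarClass k} (ops : CycleOps 𝒱) (X : 𝒱.Obj)

/-- The intersection number of a cycle `z` on `X × X` with the diagonal: the degree of its pull-back
under the diagonal map. -/
noncomputable def fixedNumber (z : (X.prod X).Cycles) : ℚ :=
  X.V.degCycle (ops.pull (diag X) z)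

/-- The cycle `z` on `X × X` is a correspondence of degree zero whose composite with itself is
numerically equivalent to the diagonal: for all correspondences `w` of degree zero the composites
of `z`, `z`, `w` and `w` itself have the same intersection number with the diagonal. -/
def IsNumInvolution (z : (X.prod X).Cycles) : Prop :=
  (X.prod X).IsCyc X.dim z ∧ ∀ w, (X.prod X).IsCyc X.dim w →
    fixedNumber ops X (compCyc ops (compCyc ops z z) w) = fixedNumber ops X w

/-- The numerical dimension of `X`: the largest natural number which is the intersection number
with the diagonal of a correspondence whose composite with itself is numerically equivalent to the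
diagonal. -/
noncomputable def numericalDim : ℕ :=
  sSup {n : ℕ | ∃ z, IsNumInvolution ops X z ∧ fixedNumber ops X z = n}

end Pool.Agent.Q57.ND
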