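import Pool.Agent.Q57.ND.Main

/-!
# The numerical dimension of the powers and the comparison of two theories
-/

open CategoryTheory AlgebraicGeometry

set_option linter.unusedSectionVars false

universe u v v'

namespace Pool.Agent.Q57.ND

open Module
open Pool.Agent.H914 Pool.Agent.H914.VarClass Pool.Agent.H914.VarClass.Obj
  Pool.Agent.H914.WeilCohomology Pool.Agent.Y133.Half Pool.Agent.H447 Pool.Agent.Q55.Rate
  Pool.Agent.Q55.Lr

variable {k : Type u} [Field k] {𝒱 : VarClass k} {ops : CycleOps 𝒱}
  {W : WeilCohomology.{u, v} ops} {X : 𝒱.Obj}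

lemma dim_pw_of_sign (h : SignStd W X) (n : ℕ) :
    numericalDim ops (pw X n) = totalBetti W X ^ (n + 1) := by
  rw [← betti_pw]
  exact (sign_iff W).1 (signStd_pw h n)

lemma gap_pw (h : ¬ SignStd W X) (n : ℕ) :
    2 * totalBetti W X ^ (n + 1) + (n + 2) ^ (totalBetti W X ^ 2) * numericalDim ops (pw X n) ≤
      (n + 2) ^ (totalBetti W X ^ 2) * totalBetti W X ^ (n + 1) := by
  have h1 := edist_law h n
  have h2 := dist_add_le W (X := pw X n)
  rw [betti_pw] at h2
  calc 2 * totalBetti W X ^ (n + 1) + (n + 2) ^ (totalBetti W X ^ 2) * numericalDim ops (pw X n)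
      ≤ 2 * ((n + 2) ^ (totalBetti W X ^ 2) * evenDist W (pw X n)) +
        (n + 2) ^ (totalBetti W X ^ 2) * numericalDim ops (pw X n) :=
        Nat.add_le_add_right (Nat.mul_le_mul_left _ h1) _
    _ = (n + 2) ^ (totalBetti W X ^ 2) *
        (2 * evenDist W (pw X n) + numericalDim ops (pw X n)) := by ring
    _ ≤ _ := Nat.mul_le_mul_left _ h2

lemma gap_prod (h : ¬ SignStd W X) (Y : 𝒱.Obj) :
    2 * cycRank ops Y + totalBetti W X * numericalDim ops (X.prod Y) ≤
      totalBetti W X * (totalBetti W X * totalBetti W Y) := by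
  have h1 := edist_left h Y
  have h2 := dist_add_le W (X := X.prod Y)
  have h3 : totalBetti W (X.prod Y) = totalBetti W X * totalBetti W Y :=
    Pool.Agent.Y133.Half.finrank_prod X Y
  rw [h3] at h2
  calc 2 * cycRank ops Y + totalBetti W X * numericalDim ops (X.prod Y)
      ≤ 2 * (totalBetti W X * evenDist W (X.prod Y)) +
        totalBetti W X * numericalDim ops (X.prod Y) :=
        Nat.add_le_add_right (Nat.mul_le_mul_left _ h1) _
    _ = totalBetti W X * (2 * evenDist W (X.prod Y) + numericalDim ops (X.prod Y)) := by ring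
    _ ≤ _ := Nat.mul_le_mul_left _ h2

lemma compare (W : WeilCohomology.{u, v} ops) (W' : WeilCohomology.{u, v'} ops)
    (h : SignStd W X) : totalBetti W X ≤ totalBetti W' X ∧
      (SignStd W' X ↔ totalBetti W' X = totalBetti W X) := by
  have h1 := (sign_iff W).1 h
  have h2 := dist_add_le W' (X := X)
  refine ⟨by omega, ?_⟩
  rw [sign_iff W', h1]
  exact eq_comm

end Pool.Agent.Q57.ND
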