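import Pool.Agent.Q20.Cp.Bound

/-!
# Traces and ranks

The following is a variant of the bound in `Pool.Agent.Q20.Cp.Bound`: it also bounds the rank of the
difference of the projector and a polynomial in the operator.
-/

set_option autoImplicit false

open Module Polynomial

namespace Pool.Agent.Q57.ND

variable {K V : Type*} [Field K] [AddCommGroup V] [Module K V]

lemma rank_of_trace [Module.Finite K V] [CharZero K] {P : End K V} (h : P * P = P) :
    LinearMap.trace K V P = (finrank K (LinearMap.range P) : K) :=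
  (LinearMap.IsIdempotentElem.isProj_range P h).trace

lemma rank_mul_le [Module.Finite K V] (A B : End K V) :
    finrank K (LinearMap.range (A + B)) ≤
      finrank K (LinearMap.range A) + finrank K (LinearMap.range B) := by
  have h1 : LinearMap.range (A + B) ≤ LinearMap.range A ⊔ LinearMap.range B := by
    rintro _ ⟨x, rfl⟩
    exact Submodule.add_mem_sup ⟨x, rfl⟩ ⟨x, rfl⟩
  exact (Submodule.finrank_mono h1).trans (Submodule.finrank_add_le_finrank_add_finrank _ _)

/-- Let `ε` be an operator with square one and `T` an operator which commutes with it such that the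
super traces of `(T² - 1) p(T)` are zero. Then the super trace of `T` is `dim V - 2 n` with a natural
number `n`, and some polynomial in `T` differs from the projector `(1 + ε) / 2` by an operator of rank
at most `n`. -/
theorem str_rank [Module.Finite K V] [CharZero K] {ε T : End K V} (hε : ε * ε = 1)
    (hc : T * ε = ε * T)
    (h0 : ∀ p : K[X], LinearMap.trace K V (ε * ((T * T - 1) * aeval T p)) = 0) :
    ∃ n : ℕ, LinearMap.trace K V (ε * T) + 2 * n = finrank K V ∧
      ∃ p : K[X], finrank K (LinearMap.range ((2⁻¹ : K) • (1 + ε) - aeval T p)) ≤ n := by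
  obtain ⟨E₁, E₂, E₃, s, hs, i1, i2, i3, n1, n2, h3⟩ := Q20.Cp.spectral T
  have hcom : ∀ p : K[X], aeval T p * ε = ε * aeval T p := by
    intro p
    have h1 : Commute T ε := hc
    rw [aeval_eq_sum_range]
    exact Commute.sum_left _ _ _ fun i _ => (h1.pow_left i).smul_left _
  have h2K : (2 : K) ≠ 0 := two_ne_zero
  set e₁ := aeval T E₁
  set e₂ := aeval T E₂
  set e₃ := aeval T E₃
  set p : End K V := (2⁻¹ : K) • (1 + ε) with hp
  set m : End K V := (2⁻¹ : K) • (1 - ε) with hm
  have hpp : p * p = p := by
    rw [hp, smul_mul_smul_comm, add_mul, mul_add, one_mul, mul_add, one_mul, mul_one, hε]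
    rw [show (1 : End K V) + ε + (ε + 1) = (2 : K) • (1 + ε) by rw [two_smul]; abel, smul_smul]
    congr 1
    field_simp
  have hmm : m * m = m := by
    rw [hm, smul_mul_smul_comm, sub_mul, mul_sub, one_mul, mul_sub, one_mul, mul_one, hε]
    rw [show (1 : End K V) - ε - (ε - 1) = (2 : K) • (1 - ε) by rw [two_smul]; abel, smul_smul]
    congr 1
    field_simp
  have hpm : p + m = 1 := by
    rw [hp, hm, ← smul_add, show (1 : End K V) + ε + (1 - ε) = (2 : K) • 1 by
      rw [two_smul]; abel, smul_smul, inv_mul_cancel₀ h2K, one_smul]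
  have hpm' : p - m = ε := by
    rw [hp, hm, ← smul_sub, show (1 : End K V) + ε - (1 - ε) = (2 : K) • ε by
      rw [two_smul]; abel, smul_smul, inv_mul_cancel₀ h2K, one_smul]
  have cp : ∀ q : K[X], aeval T q * p = p * aeval T q := by
    intro q
    rw [hp, mul_smul_comm, smul_mul_assoc, mul_add, add_mul, hcom, mul_one, one_mul]
  have cm : ∀ q : K[X], aeval T q * m = m * aeval T q := by
    intro q
    rw [hm, mul_smul_comm, smul_mul_assoc, mul_sub, sub_mul, hcom, mul_one, one_mul]
  have idem : ∀ (q : K[X]) (r : End K V), aeval T q * aeval T q = aeval T q → r * r = r →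
      aeval T q * r = r * aeval T q → (r * aeval T q) * (r * aeval T q) = r * aeval T q := by
    intro q r hq hr hqr
    rw [mul_assoc, ← mul_assoc (aeval T q), hqr, mul_assoc, hq, ← mul_assoc, hr]
  have hα := rank_of_trace (idem E₁ p i1 hpp (cp E₁))
  have hβ := rank_of_trace (idem E₁ m i1 hmm (cm E₁))
  have hγ := rank_of_trace (idem E₂ p i2 hpp (cp E₂))
  have hδ := rank_of_trace (idem E₂ m i2 hmm (cm E₂))
  have hζ := rank_of_trace (idem E₃ p i3 hpp (cp E₃))
  have hζ' := rank_of_trace (idem E₃ m i3 hmm (cm E₃))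
  set α := finrank K (LinearMap.range (p * e₁))
  set β := finrank K (LinearMap.range (m * e₁))
  set γ := finrank K (LinearMap.range (p * e₂))
  set δ := finrank K (LinearMap.range (m * e₂))
  set ζ := finrank K (LinearMap.range (p * e₃))
  set ζ' := finrank K (LinearMap.range (m * e₃))
  have hdim : (finrank K V : K) = α + β + γ + δ + ζ + ζ' := by
    have h5 : p * e₁ + m * e₁ = e₁ := by rw [← add_mul, hpm, one_mul]
    have h6 : p * e₂ + m * e₂ = e₂ := by rw [← add_mul, hpm, one_mul]
    have h7 : p * e₃ + m * e₃ = e₃ := by rw [← add_mul, hpm, one_mul]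
    have h8 : (1 : End K V) = (p * e₁ + m * e₁) + (p * e₂ + m * e₂) + (p * e₃ + m * e₃) := by
      rw [h5, h6, h7, hs]
    have h9 := congrArg (LinearMap.trace K V) h8
    rw [LinearMap.trace_one, map_add, map_add, map_add, map_add, map_add, hα, hβ, hγ, hδ, hζ,
      hζ'] at h9
    rw [h9]
    ring
  have hnil : ∀ N : End K V, IsNilpotent N → N * ε = ε * N → LinearMap.trace K V (ε * N) = 0 := by
    intro N hN hNε
    have h5 : IsNilpotent (ε * N) := by
      obtain ⟨k, hk⟩ := hN
      refine ⟨k, ?_⟩
      have : Commute ε N := hNε.symm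
      rw [this.mul_pow, hk, mul_zero]
    exact (LinearMap.isNilpotent_trace_of_isNilpotent h5).eq_zero
  have hT : aeval T (X : K[X]) = T := aeval_X T
  have t1 : LinearMap.trace K V (ε * (T * e₁)) = α - β := by
    have h5 : ε * (T * e₁) = (p * e₁ - m * e₁) + ε * ((T - 1) * e₁) := by
      rw [← sub_mul, hpm', sub_mul, one_mul, mul_sub]
      abel
    rw [h5, map_add, map_sub, hα, hβ, hnil _ n1, add_zero]
    rw [sub_mul, one_mul, sub_mul, mul_sub, mul_assoc, hcom, ← mul_assoc, hc, mul_assoc]
  have t2 : LinearMap.trace K V (ε * (T * e₂)) = - (γ - δ) := by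
    have h5 : ε * (T * e₂) = ε * ((T + 1) * e₂) - (p * e₂ - m * e₂) := by
      rw [← sub_mul, hpm', add_mul, one_mul, mul_add]
      abel
    rw [h5, map_sub, map_sub, hγ, hδ, hnil _ n2, zero_sub]
    rw [add_mul, one_mul, add_mul, mul_add, mul_assoc, hcom, ← mul_assoc, hc, mul_assoc]
  have t3 : LinearMap.trace K V (ε * (T * e₃)) = 0 := by
    have h5 : T * e₃ = (T * T - 1) * aeval T (s * X) := by
      rw [h3, map_mul, hT]
      have h6 : T * (T * T - 1) = (T * T - 1) * T := by noncomm_ring
      have h7 : T * aeval T s = aeval T s * T := by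
        have h8 : aeval T (X * s) = aeval T (s * X) := by rw [mul_comm]
        rwa [map_mul, map_mul, hT] at h8
      rw [← mul_assoc, h6, mul_assoc, h7]
    rw [h5, h0]
  have t4 : (ζ : K) - ζ' = 0 := by
    have h5 : LinearMap.trace K V (ε * e₃) = 0 := by rw [h3, h0]
    rw [← hpm', sub_mul, map_sub, hζ, hζ'] at h5
    exact h5
  have t5 : LinearMap.trace K V (ε * T) = α - β - (γ - δ) := by
    have h5 : ε * T = ε * (T * e₁) + ε * (T * e₂) + ε * (T * e₃) := by
      rw [← mul_add, ← mul_add, ← mul_add, ← mul_add, hs, mul_one]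
    rw [h5, map_add, map_add, t1, t2, t3]
    ring
  refine ⟨β + γ + ζ, ?_, E₁, ?_⟩
  · rw [t5, hdim]
    push_cast
    linear_combination t4
  · have h5 : p - e₁ = (-(m * e₁) + p * e₂) + p * e₃ := by
      have h6 : p = p * e₁ + p * e₂ + p * e₃ := by
        rw [← mul_add, ← mul_add, hs, mul_one]
      have h7 : e₁ = p * e₁ + m * e₁ := by rw [← add_mul, hpm, one_mul]
      calc p - e₁ = (p * e₁ + p * e₂ + p * e₃) - (p * e₁ + m * e₁) := by rw [← h6, ← h7]
        _ = _ := by abel
    change finrank K (LinearMap.range (p - e₁)) ≤ _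
    rw [h5]
    refine (rank_mul_le _ _).trans (Nat.add_le_add_right ((rank_mul_le _ _).trans ?_) _)
    rw [LinearMap.range_neg]

end Pool.Agent.Q57.ND
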