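import Pool.Agent.Q57.ND.Defs
import Pool.Agent.Q57.ND.Lin
import Pool.Agent.Q55.Lr.SgnLaw

/-!
# The numerical dimension and the sign conjecture
-/

open CategoryTheory AlgebraicGeometry

set_option linter.unusedSectionVars false

universe u v v'

namespace Pool.Agent.Q57.ND

open Module Polynomial
open Pool.Agent.H914 Pool.Agent.H914.VarClass Pool.Agent.H914.VarClass.Obj
  Pool.Agent.H914.WeilCohomology Pool.Agent.Y133.Half Pool.Agent.H447 Pool.Agent.Q55.Rate
  Pool.Agent.Q55.Lr Pool.Agent.H578R3

variable {k : Type u} [Field k] {𝒱 : VarClass k} {ops : CycleOps 𝒱}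
  (W : WeilCohomology.{u, v} ops) {X : 𝒱.Obj}

/-- The trace formula. -/
lemma str_cyc {z : (X.prod X).Cycles} (hz : (X.prod X).IsCyc X.dim z) :
    LinearMap.trace W.K (W.H X) (par (W.isInternal X) * W.corr (W.cl _ z)) =
      (fixedNumber ops X z : W.K) := by
  rw [trace_par_corr, ← cl_pull, tr_cl _ (ops.pull_mem _ hz)]
  rfl

lemma comp_mem {z w : (X.prod X).Cycles} (hz : (X.prod X).IsCyc X.dim z)
    (hw : (X.prod X).IsCyc X.dim w) : (X.prod X).IsCyc X.dim (compCyc ops z w) :=
  compCyc_mem hz hw (by omega)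

lemma corr_comp {z w : (X.prod X).Cycles} (hw : (X.prod X).IsCyc X.dim w) :
    (W.corr (W.cl _ (compCyc ops z w)) : Module.End W.K (W.H X)) =
      W.corr (W.cl _ w) * W.corr (W.cl _ z) := by
  rw [corr_compCyc W hw]
  rfl

lemma par_sq : par (W.isInternal X) * par (W.isInternal X) = 1 := by
  rw [Sgn.par_eq]
  have h := Sgn.evenProj_idem (W.isInternal X)
  set e := evenProj (W.isInternal X)
  simp only [sub_mul, mul_sub, one_mul, mul_one, h]
  abel

lemma kop_comm {T : Module.End W.K (W.H X)} (hT : T ∈ KOp W X X 0) :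
    T * par (W.isInternal X) = par (W.isInternal X) * T := by
  have hx' : IsHom (W.gr X) 0 T := by
    intro i a ha
    have := KOp.isHom hT i a ha
    simpa using this
  have h := (Sgn.evenProj_comm (W.isInternal X) hx').eq
  rw [Sgn.par_eq, mul_sub, sub_mul, mul_sub, sub_mul, mul_one, one_mul, h]

lemma kop_of_cyc {z : (X.prod X).Cycles} (hz : (X.prod X).IsCyc X.dim z) :
    (W.corr (W.cl _ z) : Module.End W.K (W.H X)) ∈ KOp W X X 0 := KOp.gen (by simp) hz

/-- For a numerical involution `z` the super traces of `(T² - 1) y` are zero. -/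
lemma str_zero {z : (X.prod X).Cycles} (hz : IsNumInvolution ops X z)
    {y : Module.End W.K (W.H X)} (hy : y ∈ KOp W X X 0) :
    LinearMap.trace W.K (W.H X) (par (W.isInternal X) *
      ((W.corr (W.cl _ z) * W.corr (W.cl _ z) - 1) * y)) = 0 := by
  set T : Module.End W.K (W.H X) := W.corr (W.cl _ z) with hT
  set ε := par (W.isInternal X) with hε
  have hTε : T * ε = ε * T := kop_comm W (kop_of_cyc W hz.1)
  have h1 : LinearMap.trace W.K (W.H X) (ε * (y * (T * T - 1))) = 0 := by
    induction hy using Submodule.span_induction with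
    | mem y hy =>
      obtain ⟨p, hp, w, hw, rfl⟩ := hy
      obtain rfl : p = X.dim := by omega
      have h2 := hz.2 w hw
      have h3 := str_cyc W hw
      have h4 := str_cyc W (comp_mem (ops := ops) (comp_mem (ops := ops) hz.1 hz.1) hw)
      rw [corr_comp W hw, corr_comp W hz.1, h2] at h4
      rw [mul_sub, mul_sub, map_sub, mul_one, h3]
      rw [sub_eq_zero]
      exact h4
    | zero => simp
    | add x y _ _ hx hy => rw [add_mul, mul_add, map_add, hx, hy, add_zero]
    | smul c x _ hx => rw [smul_mul_assoc, mul_smul_comm, map_smul, hx, smul_zero]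
  have h5 : ε * ((T * T - 1) * y) = (T * T - 1) * (ε * y) := by
    have h6 : ε * (T * T) = (T * T) * ε := by
      rw [← mul_assoc, ← hTε, mul_assoc, ← hTε, mul_assoc]
    rw [← mul_assoc, mul_sub, mul_one, h6, sub_mul, sub_mul, one_mul, mul_assoc (T * T)]
  rw [h5, LinearMap.trace_mul_comm, mul_assoc]
  exact h1

lemma aeval_mem {T : Module.End W.K (W.H X)} (hT : T ∈ KOp W X X 0) (p : W.K[X]) :
    aeval T p ∈ KOp W X X 0 := by
  have h : aeval T p ∈ Pool.Agent.TH133.PW.kAlg W X :=
    (Algebra.adjoin_le (Set.singleton_subset_iff.2 hT)) (aeval_mem_adjoin_singleton W.K T)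
  exact h

/-- Algebraic operators of degree zero are algebraic. -/
lemma isAlgOp_of_kop {T : Module.End W.K (W.H X)} (hT : T ∈ KOp W X X 0) : IsAlgOp W X T := by
  induction hT using Submodule.span_induction with
  | mem x hx =>
    obtain ⟨p, hp, z, hz, rfl⟩ := hx
    exact ⟨_, Submodule.subset_span ⟨p, z, hz, rfl⟩, rfl⟩
  | zero => exact ⟨0, Submodule.zero_mem _, corr_zero _⟩
  | add x y _ _ hx hy =>
    obtain ⟨c, hc, rfl⟩ := hx
    obtain ⟨d, hd, rfl⟩ := hy
    exact ⟨c + d, Submodule.add_mem _ hc hd, corr_add _ _ _⟩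
  | smul a x _ hx =>
    obtain ⟨c, hc, rfl⟩ := hx
    exact ⟨a • c, Submodule.smul_mem _ _ hc, corr_smul _ _ _⟩

/-- The bound for one numerical involution. -/
lemma involution_le {z : (X.prod X).Cycles} (hz : IsNumInvolution ops X z) :
    ∃ n : ℕ, fixedNumber ops X z + 2 * n = totalBetti W X ∧ evenDist W X ≤ n := by
  have hk := kop_of_cyc W hz.1
  obtain ⟨n, hn, p, hp⟩ := str_rank (par_sq W) (kop_comm W hk)
    (fun p => str_zero W hz (aeval_mem W hk p))
  refine ⟨n, ?_, ?_⟩
  · rw [str_cyc W hz.1] at hn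
    exact_mod_cast hn
  · refine le_trans ?_ hp
    have h1 : (2⁻¹ : W.K) • (1 + par (W.isInternal X)) = evenProj (W.isInternal X) := by
      rw [par_eq_evenProj, add_sub_cancel, smul_smul, inv_mul_cancel₀ two_ne_zero, one_smul]
    rw [h1]
    exact edist_le (mem_isAlgOp.1 (isAlgOp_of_kop W (aeval_mem W hk p)))

lemma le_betti {n : ℕ} (h : ∃ z, IsNumInvolution ops X z ∧ fixedNumber ops X z = n) :
    2 * evenDist W X + n ≤ totalBetti W X := by
  obtain ⟨z, hz, hn⟩ := h
  obtain ⟨m, hm, hm'⟩ := involution_le W hz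
  rw [hn] at hm
  have : n + 2 * m = totalBetti W X := by exact_mod_cast hm
  omega

/-- A correspondence which acts as an involution is a numerical involution. -/
lemma isNumInvolution_of_sq {z : (X.prod X).Cycles} (hz : (X.prod X).IsCyc X.dim z)
    (h : (W.corr (W.cl _ z) : Module.End W.K (W.H X)) * W.corr (W.cl _ z) = 1) :
    IsNumInvolution ops X z := by
  refine ⟨hz, fun w hw => ?_⟩
  have h3 := str_cyc W hw
  have h4 := str_cyc W (comp_mem (ops := ops) (comp_mem (ops := ops) hz hz) hw)
  rw [corr_comp W hw, corr_comp W hz, h, mul_one, h3] at h4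
  exact_mod_cast h4.symm

/-- The diagonal. -/
lemma exists_diag : ∃ z, (X.prod X).IsCyc X.dim z ∧
    (W.corr (W.cl _ z) : Module.End W.K (W.H X)) = 1 := by
  refine ⟨ops.push (diag X) X.V.fundCycle, ?_, ?_⟩
  · exact ops.push_mem _ X.V.fundCycle_mem (by simp only [dim_prod]; omega)
  · apply LinearMap.ext
    intro a
    rw [W.cl_push, corr_diag, W.cl_fund, one_mul, Module.End.one_apply]

/-- The Euler characteristic: the super trace of the identity. -/
noncomputable def euler (W : WeilCohomology.{u, v} ops) (X : 𝒱.Obj) : ℤ :=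
  2 * finrank W.K (LinearMap.range (evenProj (W.isInternal X))) - totalBetti W X

lemma trace_par : LinearMap.trace W.K (W.H X) (par (W.isInternal X)) = (euler W X : W.K) := by
  rw [par_eq_evenProj, map_sub, map_smul, LinearMap.trace_one,
    rank_of_trace (Sgn.evenProj_idem (W.isInternal X)), euler, smul_eq_mul]
  push_cast
  rfl

/-- There is a numerical involution whose number is the absolute value of the Euler
characteristic. -/
lemma exists_involution : ∃ z, IsNumInvolution ops X z ∧
    fixedNumber ops X z = ((euler W X).natAbs : ℕ) := by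
  obtain ⟨z, hz, h1⟩ := exists_diag W (X := X)
  have h2 := str_cyc W hz
  rw [h1, mul_one, trace_par] at h2
  have h3 : (euler W X : ℚ) = fixedNumber ops X z := by exact_mod_cast h2
  rcases le_total 0 (euler W X) with h | h
  · refine ⟨z, isNumInvolution_of_sq W hz (by rw [h1, mul_one]), ?_⟩
    rw [← h3, Nat.cast_natAbs, abs_of_nonneg h]
  · have hz' : (X.prod X).IsCyc X.dim ((-1 : ℚ) • z) := hz.smul (-1)
    have h4 : (W.corr (W.cl _ ((-1 : ℚ) • z)) : Module.End W.K (W.H X)) =
        (-1 : Module.End W.K (W.H X)) := by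
      rw [cl_smul, corr_smul, h1, Rat.cast_neg, Rat.cast_one]
      exact neg_one_smul W.K (1 : Module.End W.K (W.H X))
    refine ⟨(-1 : ℚ) • z, isNumInvolution_of_sq W hz' ?_, ?_⟩
    · rw [h4]
      exact neg_mul_neg (1 : Module.End W.K (W.H X)) 1 |>.trans (one_mul 1)
    have h5 := str_cyc W hz'
    have h7 : par (W.isInternal X) * (-1 : Module.End W.K (W.H X)) = -par (W.isInternal X) :=
      LinearMap.ext fun x => map_neg (par (W.isInternal X)) x
    rw [h4, h7, map_neg, trace_par] at h5
    have h6 : (-(euler W X) : ℚ) = fixedNumber ops X ((-1 : ℚ) • z) := by exact_mod_cast h5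
    rw [← h6, Nat.cast_natAbs, abs_of_nonpos h]
    push_cast
    rfl

include W in
lemma numSet_bdd : BddAbove {n : ℕ | ∃ z, IsNumInvolution ops X z ∧
    fixedNumber ops X z = n} :=
  ⟨totalBetti W X, fun n hn => by have := le_betti W hn; omega⟩

/-- **The bound.** -/
theorem dist_add_le : 2 * evenDist W X + numericalDim ops X ≤ totalBetti W X :=
  le_betti W (Nat.sSup_mem ⟨_, exists_involution W⟩ (numSet_bdd W))

theorem euler_le : (euler W X).natAbs ≤ numericalDim ops X :=
  le_csSup (numSet_bdd W) (exists_involution W)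

/-- **The sign conjecture is the equality of two numbers.** -/
theorem sign_iff : SignStd W X ↔ numericalDim ops X = totalBetti W X := by
  constructor
  · intro h
    have h1 : numericalDim ops X ≤ totalBetti W X := by
      have := dist_add_le W (X := X)
      omega
    refine le_antisymm h1 (le_csSup (numSet_bdd W) ?_)
    obtain ⟨z, hz, hz'⟩ := h
    rw [isEvenProj_iff] at hz'
    obtain ⟨w, hw, hw'⟩ := exists_diag W (X := X)
    have hc : (X.prod X).IsCyc X.dim ((2 : ℚ) • z + (-1 : ℚ) • w) := (hz.smul 2).add (hw.smul (-1))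
    have h4 : (W.corr (W.cl _ ((2 : ℚ) • z + (-1 : ℚ) • w)) : Module.End W.K (W.H X)) =
        par (W.isInternal X) := by
      rw [map_add, corr_add, cl_smul, cl_smul, corr_smul, corr_smul, hz', hw', Rat.cast_neg,
        Rat.cast_one, Rat.cast_ofNat, par_eq_evenProj, sub_eq_add_neg]
      congr 1
      exact neg_one_smul W.K (1 : Module.End W.K (W.H X))
    refine ⟨_, isNumInvolution_of_sq W hc (by rw [h4]; exact par_sq W), ?_⟩
    have h5 := str_cyc W hc
    rw [h4, par_sq, LinearMap.trace_one] at h5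
    exact_mod_cast h5.symm
  · intro h
    rw [← Pool.Agent.Q55.Lr.edist_eq_zero]
    have := dist_add_le W (X := X)
    omega

end Pool.Agent.Q57.ND
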